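import Pool.Agent.Helper70.SUB.SheetW
import Pool.Agent.Helper2.SUBK.T1CG

/-!
Project SUBW, row T1CW: `y = w ^ 3 +` smaller terms with slow coefficients, `x` an arbitrary integer.
-/

set_option autoImplicit false

namespace Pool.Agent.Helper2.SUBW

open Filter Finset Pool.Agent.Helper70.SUB Pool.Agent.Helper77.SUBK Pool.Agent.Helper70.SUBL
  Pool.Agent.Helper70.SUBW

/-- a choice from a finite set is constant along an ultrafilter -/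
theorem ucon {κ : Type} [Finite κ] (φ : Ultrafilter ℕ) (f : ℕ → κ) :
    ∃ k, ∀ᶠ j in (φ : Filter ℕ), f j = k := by
  by_contra h
  have h1 : ∀ k, ∀ᶠ j in (φ : Filter ℕ), f j ≠ k := fun k => by
    rcases φ.eventually_or.1 (Filter.Eventually.of_forall fun j => em (f j = k)) with h2 | h2
    · exact absurd ⟨k, h2⟩ h
    · exact h2
  have h2 : ∀ᶠ j in (φ : Filter ℕ), ∀ k, f j ≠ k := Filter.eventually_all.2 h1
  obtain ⟨j, hj⟩ := h2.exists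
  exact hj (f j) rfl

/-- the sizes of `x` and `y` -/
theorem sizes {ε : ℝ} (hε : 0 < ε) {x y : ℤ} (h2 : (2 : ℝ) ≤ |(x : ℝ)|)
    (hd : |((y ^ 2 - x ^ 3 : ℤ) : ℝ)| ≤ |(x : ℝ)| ^ (1 / (2 + ε))) :
    (2 : ℝ) ≤ x ∧ |(y : ℝ) ^ 2 - (x : ℝ) ^ 3| ≤ x ∧ (x : ℝ) ≤ (y : ℝ) ^ 2 ∧
      (y : ℝ) ^ 2 ≤ (x : ℝ) ^ 4 := by
  have h3 : |(x : ℝ)| ^ (1 / (2 + ε)) ≤ |(x : ℝ)| := by
    conv_rhs => rw [← Real.rpow_one |(x : ℝ)|]
    refine Real.rpow_le_rpow_of_exponent_le (by linarith) ?_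
    rw [div_le_one (by linarith)]
    linarith
  have h4 := hd.trans h3
  push_cast at h4
  have h6 : (2 : ℝ) ≤ x := by
    rcases abs_cases (x : ℝ) with ⟨h, _⟩ | ⟨h, _⟩
    · rw [h] at h2
      exact h2
    · exfalso
      rw [h] at h2 h4
      have h7 := (abs_le.1 h4).2
      have h8 : 0 ≤ (y : ℝ) ^ 2 := sq_nonneg _
      have h9 : (x : ℝ) ^ 3 = -(-(x : ℝ)) ^ 3 := by ring
      rw [h9] at h7
      set z := -(x : ℝ) with hz
      have h10 : z < z ^ 3 := by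
        nlinarith [mul_pos (by linarith : 0 < z) (by nlinarith : 0 < z ^ 2 - 1)]
      linarith
  rw [abs_of_nonneg (by linarith : (0 : ℝ) ≤ x)] at h4
  refine ⟨h6, h4, ?_⟩
  have h5 := abs_le.1 h4
  set X := (x : ℝ) with hX
  have h7 : 4 * X ≤ X ^ 3 := by
    nlinarith [mul_nonneg (by linarith : 0 ≤ X) (by nlinarith : 0 ≤ X ^ 2 - 4)]
  have h8 : 2 * X ^ 3 ≤ X ^ 4 := by
    nlinarith [mul_nonneg (pow_nonneg (by linarith : 0 ≤ X) 3) (by linarith : 0 ≤ X - 2)]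
  constructor <;> linarith [h5.1, h5.2]

/-- **T1CW**. -/
theorem T1CW (hEXTW : ST_EXTW) (hPFE : ST_PFE) (hSLW : ST_SLW) (hSPW : ST_SPW) (hDOMW : ST_DOMW)
    (hEXPK : ST_EXPK) (hSUBYW : ST_SUBYW) (hMAINW : ST_MAINW) : ST_T1CW := by
  classical
  intro M _ _ _ S ψ ζ t ε δ hS hζ hε hδ hδ3
  obtain ⟨P, hP⟩ := hPFE M S ψ hS
  by_contra hcon
  obtain ⟨s, φ, hxt, hs, hκ⟩ := hEXTW (M × (Fin t → ℤ) × (Fin t → M) × ℤ × ℤ)
    (fun κ q => SV S q.1 ∧ (∀ i, SV S (q.2.2.1 i)) ∧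
      (∀ i, |(q.2.1 i : ℝ)| ≤ |(q.2.2.2.2 : ℝ)| ^ κ) ∧
      (∀ i, ‖ψ ((q.2.1 i : M) * q.2.2.1 i)‖ ≤ ‖ψ q.1‖ ^ (3 - δ)) ∧
      q.1 ^ 3 + ∑ i, (q.2.1 i : M) * q.2.2.1 i = (q.2.2.2.2 : M) ∧ q.2.2.2.2 ^ 2 ≠ q.2.2.2.1 ^ 3)
    (fun q => q.2.2.2.1) (fun q => q.2.2.2.2 ^ 2 - q.2.2.2.1 ^ 3) ε hε
    (fun κ q hq => sub_ne_zero.2 hq.2.2.2.2.2) (by
      rintro ⟨κ, hκ, C, hC⟩
      exact hcon ⟨κ, hκ, C, fun w c b x y h1 h2 h3 h4 h5 h6 =>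
        hC (w, c, b, x, y) ⟨h1, h2, h3, h4, h5, h6⟩⟩)
  set w : ℕ → M := fun j => (s j).1 with hw
  set c : ℕ → Fin t → ℤ := fun j => (s j).2.1 with hc
  set b : ℕ → Fin t → M := fun j => (s j).2.2.1 with hb
  set x : ℕ → ℤ := fun j => (s j).2.2.2.1 with hx
  set y : ℕ → ℤ := fun j => (s j).2.2.2.2 with hy
  have wSV : ∀ j, SV S (w j) := fun j => (hs j).1.1
  have bSV : ∀ j i, SV S (b j i) := fun j => (hs j).1.2.1
  have cy : ∀ j i, |(c j i : ℝ)| ≤ |(y j : ℝ)| ^ (1 / ((j : ℝ) + 1)) := fun j => (hs j).1.2.2.1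
  have bW : ∀ j i, ‖ψ ((c j i : M) * b j i)‖ ≤ ‖ψ (w j)‖ ^ (3 - δ) := fun j => (hs j).1.2.2.2.1
  have hyw : ∀ j, w j ^ 3 + ∑ i, (c j i : M) * b j i = (y j : M) := fun j => (hs j).1.2.2.2.2.1
  have hne : ∀ j, y j ^ 2 ≠ x j ^ 3 := fun j => (hs j).1.2.2.2.2.2
  have hd1 : ∀ j, |((y j ^ 2 - x j ^ 3 : ℤ) : ℝ)| ≤ |(x j : ℝ)| ^ (1 / (2 + ε)) :=
    fun j => (hs j).2.2
  have hxt : Tendsto (fun j => |(x j : ℝ)|) (φ : Filter ℕ) atTop := hxt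
  -- the sizes
  have hsz : ∀ᶠ j in (φ : Filter ℕ), (2 : ℝ) ≤ x j ∧ |(y j : ℝ) ^ 2 - (x j : ℝ) ^ 3| ≤ x j ∧
      (x j : ℝ) ≤ (y j : ℝ) ^ 2 ∧ (y j : ℝ) ^ 2 ≤ (x j : ℝ) ^ 4 := by
    filter_upwards [hxt.eventually_ge_atTop 2] with j hj
    exact sizes hε hj (hd1 j)
  have hyt : Tendsto (fun j => |(y j : ℝ)|) (φ : Filter ℕ) atTop := by
    rw [tendsto_atTop]
    intro B
    filter_upwards [hsz, hxt.eventually_ge_atTop (B ^ 2)] with j hj hB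
    obtain ⟨h1, -, h3, -⟩ := hj
    rw [abs_of_nonneg (by linarith : (0 : ℝ) ≤ x j)] at hB
    have h4 : B ^ 2 ≤ |(y j : ℝ)| ^ 2 := by
      rw [sq_abs]
      linarith
    exact le_trans (le_abs_self B) (abs_le_of_sq_le_sq (by linarith) (abs_nonneg _))
  have hyx : ∀ᶠ j in (φ : Filter ℕ), |(y j : ℝ)| ≤ |(x j : ℝ)| ^ (2 : ℝ) := by
    filter_upwards [hsz] with j hj
    obtain ⟨h1, -, -, h4⟩ := hj
    rw [abs_of_nonneg (by linarith : (0 : ℝ) ≤ x j)]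
    have h5 : (x j : ℝ) ^ (2 : ℝ) = (x j : ℝ) ^ 2 := by
      rw [← Real.rpow_natCast]
      norm_num
    rw [h5]
    refine abs_le_of_sq_le_sq ?_ (by positivity)
    calc (y j : ℝ) ^ 2 ≤ (x j : ℝ) ^ 4 := h4
      _ = _ := by ring
  -- slow coefficients
  obtain ⟨-, -, -, -, -, -, -, -, -, hSy, -, -, hsc⟩ := hSLW M S P φ (fun j => |(y j : ℝ)|) hS hyt
  obtain ⟨hSc, -⟩ := hSLW M S P φ (fun j => |(x j : ℝ)|) hS hxt
  obtain ⟨p1, p2, p3, p4, p5, p6, p7, p8, p9, p10, p11, p12, p13⟩ :=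
    hSPW M S P φ (fun j => |(x j : ℝ)|) hS hxt
  have hcS : ∀ i, Slw P φ (fun j => |(y j : ℝ)|) (fun j => (c j i : M)) := by
    intro i
    refine hSy (fun j => c j i) fun ε' hε' => ?_
    filter_upwards [hκ ε' hε', hyt.eventually_ge_atTop 1] with j h1 h2
    exact (cy j i).trans (Real.rpow_le_rpow_of_exponent_le h2 h1)
  obtain ⟨hwM, hAM⟩ := hDOMW M S P φ 3 t δ w (fun i j => (c j i : M)) (fun i j => b j i) y hS
    (by norm_num) hδ (by push_cast; exact hδ3) hyt (Filter.Eventually.of_forall wSV)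
    (fun i => Filter.Eventually.of_forall fun j => bSV j i) hcS
    (fun i => Filter.Eventually.of_forall fun j => by
      rw [hP, hP]
      push_cast
      exact bW j i)
    (Filter.Eventually.of_forall fun j => hyw j)
  obtain ⟨sc1, sc2⟩ := hsc (fun j => |(x j : ℝ)|) 2 (by norm_num) hxt hyx
  have hwX : MU P φ (fun j => |(x j : ℝ)|) w := sc2 w hwM
  have hAX : SpM P φ (fun j => |(x j : ℝ)|) (fun j => ∑ i, (c j i : M) * b j i) := by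
    obtain ⟨t', c', u', h1, h2, h3⟩ := hAM
    exact ⟨t', c', u', fun i => sc1 _ (h1 i), fun i => sc2 _ (h2 i), h3⟩
  -- the binomial series
  obtain ⟨K, hK⟩ : ∃ K : ℕ, 7 ≤ δ * K := by
    obtain ⟨K, hK⟩ := exists_nat_ge (7 / δ)
    exact ⟨K, by rw [div_le_iff₀ hδ] at hK; linarith⟩
  have hK1 : 1 ≤ K := by
    rcases Nat.eq_zero_or_pos K with h | h
    · rw [h] at hK
      norm_num at hK
    · exact h
  obtain ⟨e, C, -, hC1, hbin⟩ := (hEXPK K hK1).2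
  have hζφ : ψ ζ ^ 2 + ψ ζ + 1 = 0 := by
    have h1 := congrArg ψ hζ
    rw [map_add, map_add, map_pow, map_one, map_zero] at h1
    exact h1
  obtain ⟨B0, hB0, hana⟩ := SUBK.ana t K δ C (fun k => (e k : ℂ)) (ψ ζ) hζφ hC1 hδ hK hbin
  have hana2 : ∀ᶠ j in (φ : Filter ℕ), ∃ i : Fin 3, ‖((x j : ℝ) : ℂ) - ψ ζ ^ (i : ℕ) *
      (ψ (w j) ^ 2 * ∑ k ∈ Finset.range K, (e k : ℂ) *
        ((∑ i, ψ ((c j i : M) * b j i)) / ψ (w j) ^ 3) ^ k)‖ ≤ (x j : ℝ) ^ (-(1 / 2 : ℝ)) := by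
    filter_upwards [hsz, hyt.eventually_gt_atTop ((1 + t) * (max B0 1) ^ 3),
      hxt.eventually_ge_atTop 2048] with j h1 h2 h3
    obtain ⟨g1, g2, -, -⟩ := h1
    rw [abs_of_nonneg (by linarith : (0 : ℝ) ≤ x j)] at h3
    have h4 : B0 ≤ ‖ψ (w j)‖ := by
      by_contra hlt
      push Not at hlt
      have h5 := Helper94.SUBK.grow ψ (n := 3) hδ (by push_cast; exact hδ3) (w := w j)
        (a := fun i => (c j i : M) * b j i) (by intro i; push_cast; exact bW j i) (hyw j)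
        (le_max_right B0 1) (hlt.le.trans (le_max_left _ _))
      linarith
    refine hana (ψ (w j)) (∑ i, ψ ((c j i : M) * b j i)) (x j) h4 ?_ h3 ?_
    · refine (norm_sum_le _ _).trans ((Finset.sum_le_sum fun i _ => bW j i).trans (le_of_eq ?_))
      rw [Finset.sum_const, Finset.card_univ, Fintype.card_fin, nsmul_eq_mul]
    · have h5 : ψ (w j) ^ 3 + ∑ i, ψ ((c j i : M) * b j i) = ((y j : ℝ) : ℂ) := by
        have h6 := congrArg ψ (hyw j)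
        rw [map_add, map_pow, map_sum, map_intCast] at h6
        rw [h6]
        push_cast
        rfl
      rw [h5]
      have h6 : (((y j : ℝ) : ℂ)) ^ 2 - (((x j : ℝ) : ℂ)) ^ 3 =
          (((y j : ℝ) ^ 2 - (x j : ℝ) ^ 3 : ℝ) : ℂ) := by push_cast; ring
      rw [h6, Complex.norm_real, Real.norm_eq_abs]
      exact g2
  -- the root of unity
  have hidx : ∀ j, ∃ i : Fin 3, (∃ i : Fin 3, ‖((x j : ℝ) : ℂ) - ψ ζ ^ (i : ℕ) *
      (ψ (w j) ^ 2 * ∑ k ∈ Finset.range K, (e k : ℂ) *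
        ((∑ i, ψ ((c j i : M) * b j i)) / ψ (w j) ^ 3) ^ k)‖ ≤ (x j : ℝ) ^ (-(1 / 2 : ℝ))) →
      ‖((x j : ℝ) : ℂ) - ψ ζ ^ (i : ℕ) *
      (ψ (w j) ^ 2 * ∑ k ∈ Finset.range K, (e k : ℂ) *
        ((∑ i, ψ ((c j i : M) * b j i)) / ψ (w j) ^ 3) ^ k)‖ ≤ (x j : ℝ) ^ (-(1 / 2 : ℝ)) := by
    intro j
    by_cases h : ∃ i : Fin 3, ‖((x j : ℝ) : ℂ) - ψ ζ ^ (i : ℕ) *
      (ψ (w j) ^ 2 * ∑ k ∈ Finset.range K, (e k : ℂ) *
        ((∑ i, ψ ((c j i : M) * b j i)) / ψ (w j) ^ 3) ^ k)‖ ≤ (x j : ℝ) ^ (-(1 / 2 : ℝ))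
    · obtain ⟨i, hi⟩ := h
      exact ⟨i, fun _ => hi⟩
    · exact ⟨0, fun h' => absurd h' h⟩
  choose ι hι using hidx
  obtain ⟨i0, hi0⟩ := ucon φ ι
  -- the approximating sum
  set A : ℕ → M := fun j => ∑ i, (c j i : M) * b j i with hA
  set f : ℕ → M := fun j => ζ ^ (i0 : ℕ) * (w j ^ 2 *
    ∑ k : Fin K, (e k : M) * (A j * ((w j)⁻¹) ^ 3) ^ (k : ℕ)) with hf
  have hfM : SpM P φ (fun j => |(x j : ℝ)|) f := by
    have q1 := p7 w hwX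
    have q2 := p7 _ (p2 w hwX)
    have q3 := (p8 A _ hAX (p9 _ 3 q2)).2
    have q4 := p10 K (fun k j => (e k : M) * (A j * ((w j)⁻¹) ^ 3) ^ (k : ℕ)) fun k =>
      (p8 (fun _ => (e k : M)) _ (p6 _ (hSc _)) (p9 _ k q3)).2
    exact (p8 (fun _ => ζ ^ (i0 : ℕ)) _ (p6 _ (hSc _)) (p8 _ _ (p9 w 2 q1) q4).2).2
  have hSpx : Spa P φ (fun j => |(x j : ℝ)|) (fun j => (x j : M)) := by
    refine hSUBYW M S P φ (fun j => |(x j : ℝ)|) x f 1 (1 / 2) hS hxt hfM (by norm_num) ?_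
    filter_upwards [hana2, hi0, hsz] with j h1 h2 h3
    have h4 := hι j h1
    rw [h2] at h4
    refine ⟨by rw [Real.rpow_one], ?_⟩
    rw [hP, abs_of_nonneg (by linarith [h3.1] : (0 : ℝ) ≤ x j)]
    refine le_trans (le_of_eq ?_) h4
    congr 1
    rw [hf, map_sub, map_mul, map_mul, map_pow, map_pow, map_sum, map_intCast,
      Finset.sum_range]
    push_cast
    congr 3
    refine Finset.sum_congr rfl fun k _ => ?_
    rw [map_mul, map_pow, map_mul, map_pow, map_inv₀, map_ratCast, hA, map_sum, inv_pow,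
      div_eq_mul_inv]
  have hSpy : Spa P φ (fun j => |(x j : ℝ)|) (fun j => (y j : M)) := by
    have q1 := (p8 _ _ (p9 w 3 (p7 w hwX)) hAX).1
    exact (p12 _ _ (Filter.Eventually.of_forall hyw)).2 (p11 _ q1)
  exact hMAINW M S P φ x y ε hS hε hxt hSpx hSpy
    (Filter.Eventually.of_forall fun j => ⟨hne j, hd1 j⟩)

end Pool.Agent.Helper2.SUBW
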