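import Pool.Agent.Helper70.SUB.SheetW
import Pool.Agent.Helper45.SUBK.FINK

/-!
Project SUBW, row FINW: the final theorem for sums with slowly growing coefficients.
-/

set_option autoImplicit false

namespace Pool.Agent.Helper2.SUBW

open Filter Finset Pool.Agent.Helper70.SUB Pool.Agent.Helper77.SUBK Pool.Agent.Helper70.SUBL
  Pool.Agent.Helper70.SUBW

theorem pow_le_int {κ κ' : ℝ} (hκ : 0 < κ) (h : κ ≤ κ') (x : ℤ) :
    |(x : ℝ)| ^ κ ≤ |(x : ℝ)| ^ κ' := by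
  rcases eq_or_ne x 0 with h0 | h0
  · subst h0
    rw [Int.cast_zero, abs_zero, Real.zero_rpow hκ.ne', Real.zero_rpow (hκ.trans_le h).ne']
  · have h1 : (1 : ℤ) ≤ |x| := Int.one_le_abs h0
    have h2 : (1 : ℝ) ≤ |(x : ℝ)| := by exact_mod_cast h1
    exact Real.rpow_le_rpow_of_exponent_le h2 h

/-- **FINW** -/
theorem FINW (hT1 : ST_T1W) (hTB : ST_T1BW) (hTC : ST_T1CW) (hSVB : ST_SVB) : ST_FINW := by
  classical
  intro Γ t ε δ hfg halg hε hδ hδ1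
  obtain ⟨M, iF, iN, iG, S, φ, ζ, hS, hζ, hΓ⟩ := Helper45.SUBK.field_exists hSVB Γ hfg halg
  obtain ⟨h1, h2, h3, h4, h5, h6, h7, h8, h9, h10, h11, h12⟩ := hSVB M
  obtain ⟨κ1, hκ1, C1, hC1⟩ := hT1 M S t ε hS hε
  obtain ⟨κ2, hκ2, C2, hC2⟩ := hTB M S φ t ε (2 * δ) hS hε (by linarith) (by linarith)
  obtain ⟨κ3, hκ3, C3, hC3⟩ := hTC M S φ ζ t ε (3 * δ) hS hζ hε (by linarith) (by linarith)
  have hpow : ∀ (z : M) (k : ℕ), SV S z → SV S (z ^ k) := by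
    intro z k hz
    have := h8 S z (k : ℤ) hz
    rwa [zpow_natCast] at this
  have hlift : ∀ γ : Fin t → ℂˣ, (∀ i, γ i ∈ Γ) →
      ∃ a' : Fin t → M, (∀ i, SV S (a' i)) ∧ ∀ i, φ (a' i) = (γ i : ℂ) := by
    intro γ hγ
    have : ∀ i, ∃ y : M, SV S y ∧ φ y = (γ i : ℂ) := by
      intro i
      obtain ⟨ρ, hρ, hρ'⟩ := hΓ (γ i) (hγ i)
      exact ⟨ρ ^ 6, hpow ρ 6 hρ, by rw [map_pow, hρ']⟩
    choose a' ha' using this
    exact ⟨a', fun i => (ha' i).1, fun i => (ha' i).2⟩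
  set κ : ℝ := min κ1 (min κ2 κ3) with hκd
  have hκ : 0 < κ := lt_min hκ1 (lt_min hκ2 hκ3)
  have k1 : κ ≤ κ1 := min_le_left _ _
  have k2 : κ ≤ κ2 := (min_le_right _ _).trans (min_le_left _ _)
  have k3 : κ ≤ κ3 := (min_le_right _ _).trans (min_le_right _ _)
  refine ⟨κ, hκ, max C1 (max C2 C3), ?_⟩
  intro x y hxy hne
  rcases hxy with ⟨⟨c, γ, hγ, hc, hx⟩, ⟨d, γ', hγ', hd, hy⟩⟩ | ⟨γ0, hγ0, c, γ, hγ, hc, hsm, hx⟩ |
    ⟨γ0, hγ0, c, γ, hγ, hc, hsm, hy⟩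
  · obtain ⟨a', ha', haa⟩ := hlift γ hγ
    obtain ⟨b', hb', hbb⟩ := hlift γ' hγ'
    have e1 : ∑ i, (c i : M) * a' i = (x : M) := by
      apply φ.injective
      rw [map_sum, map_intCast, hx]
      exact Finset.sum_congr rfl fun i _ => by rw [map_mul, map_intCast, haa i]
    have e2 : ∑ i, (d i : M) * b' i = (y : M) := by
      apply φ.injective
      rw [map_sum, map_intCast, hy]
      exact Finset.sum_congr rfl fun i _ => by rw [map_mul, map_intCast, hbb i]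
    have := hC1 c d a' b' x y ha' hb' (fun i => (hc i).trans (pow_le_int hκ k1 x))
      (fun i => (hd i).trans (pow_le_int hκ k1 x)) e1 e2 hne
    linarith [le_max_left C1 (max C2 C3)]
  · obtain ⟨a', ha', haa⟩ := hlift γ hγ
    obtain ⟨ρ, hρ, hρ'⟩ := hΓ γ0 hγ0
    have e1 : (ρ ^ 3) ^ 2 + ∑ i, (c i : M) * a' i = (x : M) := by
      apply φ.injective
      rw [map_add, map_sum, map_intCast, hx, map_pow, map_pow, ← pow_mul, hρ']
      congr 1
      exact Finset.sum_congr rfl fun i _ => by rw [map_mul, map_intCast, haa i]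
    have e2 : ∀ i, ‖φ ((c i : M) * a' i)‖ ≤ ‖φ (ρ ^ 3)‖ ^ (2 - 2 * δ) := by
      intro i
      rw [map_mul, map_intCast, haa i]
      refine (hsm i).trans (le_of_eq ?_)
      have e3 : ‖(γ0 : ℂ)‖ = ‖φ (ρ ^ 3)‖ ^ (2 : ℝ) := by
        rw [← hρ', Real.rpow_two, map_pow, norm_pow, norm_pow, ← pow_mul]
      rw [e3, ← Real.rpow_mul (norm_nonneg _)]
      congr 1
      ring
    have := hC2 (ρ ^ 3) c a' x y (hpow ρ 3 hρ) ha' (fun i => (hc i).trans (pow_le_int hκ k2 x))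
      e2 e1 hne
    linarith [le_max_right C1 (max C2 C3), le_max_left C2 C3]
  · obtain ⟨b', hb', hbb⟩ := hlift γ hγ
    obtain ⟨ρ, hρ, hρ'⟩ := hΓ γ0 hγ0
    have e1 : (ρ ^ 2) ^ 3 + ∑ i, (c i : M) * b' i = (y : M) := by
      apply φ.injective
      rw [map_add, map_sum, map_intCast, hy, map_pow, map_pow, ← pow_mul, hρ']
      congr 1
      exact Finset.sum_congr rfl fun i _ => by rw [map_mul, map_intCast, hbb i]
    have e2 : ∀ i, ‖φ ((c i : M) * b' i)‖ ≤ ‖φ (ρ ^ 2)‖ ^ (3 - 3 * δ) := by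
      intro i
      rw [map_mul, map_intCast, hbb i]
      refine (hsm i).trans (le_of_eq ?_)
      have e3 : ‖(γ0 : ℂ)‖ = ‖φ (ρ ^ 2)‖ ^ (3 : ℝ) := by
        rw [← hρ', show (3 : ℝ) = ((3 : ℕ) : ℝ) by norm_num, Real.rpow_natCast, map_pow, norm_pow,
          norm_pow, ← pow_mul]
      rw [e3, ← Real.rpow_mul (norm_nonneg _)]
      congr 1
      ring
    have := hC3 (ρ ^ 2) c b' x y (hpow ρ 2 hρ) hb' (fun i => (hc i).trans (pow_le_int hκ k3 y))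
      e2 e1 hne
    linarith [le_max_right C1 (max C2 C3), le_max_right C2 C3]

end Pool.Agent.Helper2.SUBW
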